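import Mathlib

/-!
# Cross ratios of elementary symmetric functions (abstract part)
-/

set_option autoImplicit false

namespace Pool.Agent.HEnd

/-- `C(J,j) C(m,i) ≤ C(J,i) C(m,j)` for `J ≤ m`, `i ≤ j`. -/
theorem choose_cross {J m i j : ℕ} (hJ : J ≤ m) (hij : i ≤ j) :
    J.choose j * m.choose i ≤ J.choose i * m.choose j := by
  rcases Nat.lt_or_ge J j with h | h
  · rw [Nat.choose_eq_zero_of_lt h, zero_mul]
    exact Nat.zero_le _
  have h1 := Nat.choose_mul (n := J) (k := j) (s := i) hij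
  have h2 := Nat.choose_mul (n := m) (k := j) (s := i) hij
  have h3 : (J - i).choose (j - i) ≤ (m - i).choose (j - i) :=
    Nat.choose_le_choose _ (Nat.sub_le_sub_right hJ i)
  have h4 : 0 < j.choose i := Nat.choose_pos hij
  refine le_of_mul_le_mul_right (a := j.choose i) ?_ h4
  calc J.choose j * m.choose i * j.choose i = J.choose j * j.choose i * m.choose i := by ring
    _ = J.choose i * (J - i).choose (j - i) * m.choose i := by rw [h1]
    _ ≤ J.choose i * (m - i).choose (j - i) * m.choose i :=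
        Nat.mul_le_mul_right _ (Nat.mul_le_mul_left _ h3)
    _ = J.choose i * (m.choose i * (m - i).choose (j - i)) := by ring
    _ = J.choose i * (m.choose j * j.choose i) := by rw [h2]
    _ = J.choose i * m.choose j * j.choose i := by ring

/-- The cross inequality of a three term ratio. -/
theorem three_cross {u0 u1 u2 v0 v1 v2 q r s : ℝ} (hqr : q ≤ r) (hr : r ≤ s) (hq : 0 ≤ q)
    (h01 : v0 * u1 ≤ v1 * u0) (h12 : v1 * u2 ≤ v2 * u1) (h02 : v0 * u2 ≤ v2 * u0) :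
    (v0 + r * v1 + q * v2) * (u0 + s * u1 + s * u2) ≤
      (v0 + s * v1 + s * v2) * (u0 + r * u1 + q * u2) := by
  have h1 : 0 ≤ (s - r) * (v1 * u0 - v0 * u1) :=
    mul_nonneg (by linarith) (by linarith)
  have h2 : 0 ≤ (s - q) * (v2 * u0 - v0 * u2) :=
    mul_nonneg (by linarith) (by linarith)
  have h3 : 0 ≤ s * (r - q) * (v2 * u1 - v1 * u2) :=
    mul_nonneg (mul_nonneg (by linarith) (by linarith)) (by linarith)
  nlinarith [h1, h2, h3]

/-- The case `l ≥ 2`. -/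
theorem chain_two {A B C F0 F1 F2 u0 u1 u2 v0 v1 v2 q r s : ℝ} (hqr : q ≤ r) (hr : r ≤ s)
    (hq : 0 ≤ q) (hA : 0 ≤ A) (hu0 : 0 < u0) (hu1 : 0 ≤ u1) (hu2 : 0 ≤ u2)
    (hv0 : 0 ≤ v0) (hv1 : 0 ≤ v1) (hv2 : 0 ≤ v2)
    (h01 : v0 * u1 ≤ v1 * u0) (h12 : v1 * u2 ≤ v2 * u1) (h02 : v0 * u2 ≤ v2 * u0)
    (hF0 : F0 * u0 ≤ A * v0) (hF1 : F1 * u0 ≤ A * v1) (hF2 : F2 * u0 ≤ A * v2)
    (hB : A * u1 ≤ B * u0) (hC : A * u2 ≤ C * u0) :
    (F0 + r * F1 + q * F2) * (u0 + s * u1 + s * u2) ≤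
      (v0 + s * v1 + s * v2) * (A + r * B + q * C) := by
  have hr0 : 0 ≤ r := hq.trans hqr
  have hs0 : 0 ≤ s := hr0.trans hr
  have h1 : (F0 + r * F1 + q * F2) * u0 ≤ A * (v0 + r * v1 + q * v2) := by
    nlinarith [mul_le_mul_of_nonneg_left hF1 hr0, mul_le_mul_of_nonneg_left hF2 hq]
  have h2 : A * (u0 + r * u1 + q * u2) ≤ (A + r * B + q * C) * u0 := by
    nlinarith [mul_le_mul_of_nonneg_left hB hr0, mul_le_mul_of_nonneg_left hC hq]
  have h3 := three_cross hqr hr hq h01 h12 h02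
  have hU : 0 ≤ u0 + s * u1 + s * u2 := by positivity
  have hV : 0 ≤ v0 + s * v1 + s * v2 := by positivity
  refine le_of_mul_le_mul_right (a := u0) ?_ hu0
  calc (F0 + r * F1 + q * F2) * (u0 + s * u1 + s * u2) * u0
      = ((F0 + r * F1 + q * F2) * u0) * (u0 + s * u1 + s * u2) := by ring
    _ ≤ (A * (v0 + r * v1 + q * v2)) * (u0 + s * u1 + s * u2) :=
        mul_le_mul_of_nonneg_right h1 hU
    _ = A * ((v0 + r * v1 + q * v2) * (u0 + s * u1 + s * u2)) := by ring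
    _ ≤ A * ((v0 + s * v1 + s * v2) * (u0 + r * u1 + q * u2)) :=
        mul_le_mul_of_nonneg_left h3 hA
    _ = (v0 + s * v1 + s * v2) * (A * (u0 + r * u1 + q * u2)) := by ring
    _ ≤ (v0 + s * v1 + s * v2) * ((A + r * B + q * C) * u0) :=
        mul_le_mul_of_nonneg_left h2 hV
    _ = (v0 + s * v1 + s * v2) * (A + r * B + q * C) * u0 := by ring

/-- The case `l = 1`: `v0, v1 = u0, v2 = u1`. -/
theorem chain_one {A B C F u0 u1 u2 v0 q r s G : ℝ} (hqr : q ≤ r) (hr : r ≤ s)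
    (hq : 0 ≤ q) (hA : 0 ≤ A) (hu0 : 0 < u0) (hu1 : 0 < u1) (hu2 : 0 ≤ u2)
    (hG : 0 ≤ G)
    (h01 : v0 * u1 ≤ u0 * u0) (h12 : u0 * u2 ≤ u1 * u1) (h02 : v0 * u2 ≤ u1 * u0)
    (hF : F * u0 ≤ A * v0) (hB : A * u1 ≤ B * u0) (hC : B * u2 ≤ C * u1)
    (hG1 : v0 + s * u0 + s * u1 ≤ G * (u0 + s * u1 + s * u2))
    (hG2 : u1 ≤ G * (u1 + u2)) :
    F + r * A + q * B ≤ G * (A + r * B + q * C) := by
  have hr0 : 0 ≤ r := hq.trans hqr
  have hs0 : 0 ≤ s := hr0.trans hr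
  have h3 := three_cross hqr hr hq h01 h12 h02
  have hU : 0 < u0 + s * u1 + s * u2 := by positivity
  have hU' : 0 < u0 + r * u1 + q * u2 := by positivity
  -- the bound at `(r, q)`
  have h4 : v0 + r * u0 + q * u1 ≤ G * (u0 + r * u1 + q * u2) := by
    refine le_of_mul_le_mul_right (a := u0 + s * u1 + s * u2) ?_ hU
    calc (v0 + r * u0 + q * u1) * (u0 + s * u1 + s * u2)
        ≤ (v0 + s * u0 + s * u1) * (u0 + r * u1 + q * u2) := h3
      _ ≤ (G * (u0 + s * u1 + s * u2)) * (u0 + r * u1 + q * u2) :=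
          mul_le_mul_of_nonneg_right hG1 hU'.le
      _ = G * (u0 + r * u1 + q * u2) * (u0 + s * u1 + s * u2) := by ring
  -- the bound at `A = 0`
  have h5 : q * u1 ≤ G * (r * u1 + q * u2) := by
    have h6 := mul_le_mul_of_nonneg_left hG2 hq
    have h7 : G * (q * u1) ≤ G * (r * u1) :=
      mul_le_mul_of_nonneg_left (mul_le_mul_of_nonneg_right hqr hu1.le) hG
    nlinarith
  -- interpolate: `A u1 = t B u0`
  have h8 : A * u1 * (v0 + r * u0 + q * u1) ≤ A * u1 * (G * (u0 + r * u1 + q * u2)) :=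
    mul_le_mul_of_nonneg_left h4 (mul_nonneg hA hu1.le)
  have h9 : (B * u0 - A * u1) * (q * u1) ≤ (B * u0 - A * u1) * (G * (r * u1 + q * u2)) :=
    mul_le_mul_of_nonneg_left h5 (by linarith)
  have h10 : F * u0 * (u1 * u1) ≤ A * v0 * (u1 * u1) :=
    mul_le_mul_of_nonneg_right hF (by positivity)
  have h11 : G * q * u0 * (B * u2) ≤ G * q * u0 * (C * u1) :=
    mul_le_mul_of_nonneg_left hC (by positivity)
  have h10' : F * u0 * u1 ≤ A * v0 * u1 := mul_le_mul_of_nonneg_right hF hu1.le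
  refine le_of_mul_le_mul_right (a := u0 * u1) ?_ (by positivity)
  -- `(F + rA + qB) u0 u1 ≤ A v0 u1 + r A u0 u1 + q B u0 u1`
  --  `= [A u1 (v0 + r u0 + q u1) + (B u0 - A u1) q u1]`
  --  `≤ G [A u1 (u0 + r u1 + q u2) + (B u0 - A u1)(r u1 + q u2)]`
  --  `= G [A u1 u0 + B u0 (r u1 + q u2)]`
  nlinarith [h8, h9, h10', h11]

end Pool.Agent.HEnd
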