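import Pool.Agent.HEnd.Rpair

/-!
# End point values: the lemma with one pair near the end point

`d = 2 N - k = p + 2`, `m = 2 N - 2`, `y_j = 2^j C(m, j)`, `2 (1 - Re L a0) ≤ s`. For `l ≥ 2`:
`H_{k-l} ω (1) ≤ Γ_l(s) H_k ω (1)` with
`Γ_l(s) = (y_{d+l} + s y_{d+l-1} + s y_{d+l-2}) / (y_d + s y_{d-1} + s y_{d-2})`, and
`H_{k-1} ω (1) ≤ max (Γ_1(s), y_{d-1} / (y_{d-1} + y_{d-2})) H_k ω (1)`. The same at `-1`.
-/

set_option autoImplicit false

namespace Pool.Agent.HEnd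

open Polynomial Set Complex ComplexConjugate Pool.Agent.HHalf Pool.Agent.HStar

theorem cross_ge_two {m : ℕ} {E : ℕ → ℝ} (hE : Cross m E) {q r s : ℝ} (hq : 0 ≤ q) (hqr : q ≤ r)
    (hr : r ≤ s) {p l : ℕ} (hl : 2 ≤ l) (hp : p + 2 ≤ m) :
    (E (p + 2 + l) + r * E (p + 1 + l) + q * E (p + l)) *
        (yy m (p + 2) + s * yy m (p + 1) + s * yy m p) ≤
      (yy m (p + 2 + l) + s * yy m (p + 1 + l) + s * yy m (p + l)) *
        (E (p + 2) + r * E (p + 1) + q * E p) := by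
  refine chain_two hqr hr hq (hE.1 _) (yy_pos hp) (yy_nonneg _ _) (yy_nonneg _ _)
    (yy_nonneg _ _) (yy_nonneg _ _) (yy_nonneg _ _) ?_ ?_ ?_ (hE.2 _ _ (by omega))
    (hE.2 _ _ (by omega)) (hE.2 _ _ (by omega)) (hE.2 _ _ (by omega)) (hE.2 _ _ (by omega))
  · have := yy_cross m (p + 1) l 1
    rwa [show p + 1 + l + 1 = p + 2 + l by omega] at this
  · have := yy_cross m p l 1
    rwa [show p + l + 1 = p + 1 + l by omega] at this
  · have := yy_cross m p l 2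
    rwa [show p + l + 2 = p + 2 + l by omega] at this

theorem cross_one {m : ℕ} {E : ℕ → ℝ} (hE : Cross m E) {q r s G : ℝ} (hq : 0 ≤ q) (hqr : q ≤ r)
    (hr : r ≤ s) {p : ℕ} (hp : p + 2 ≤ m) (hG : 0 ≤ G)
    (hG1 : yy m (p + 3) + s * yy m (p + 2) + s * yy m (p + 1) ≤
      G * (yy m (p + 2) + s * yy m (p + 1) + s * yy m p))
    (hG2 : yy m (p + 1) ≤ G * (yy m (p + 1) + yy m p)) :
    E (p + 3) + r * E (p + 2) + q * E (p + 1) ≤ G * (E (p + 2) + r * E (p + 1) + q * E p) := by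
  refine chain_one hqr hr hq (hE.1 _) (yy_pos hp) (yy_pos (show p + 1 ≤ m by omega))
    (yy_nonneg _ _) hG ?_ ?_ ?_ (hE.2 _ _ (by omega)) (hE.2 _ _ (by omega))
    (hE.2 _ _ (by omega)) hG1 hG2
  · have := yy_cross m (p + 1) 1 1
    rwa [show p + 1 + 1 + 1 = p + 3 by omega, show p + 1 + 1 = p + 2 by omega] at this
  · have := yy_cross m p 1 1
    rwa [show p + 1 + 1 = p + 2 by omega] at this
  · have := yy_cross m p 1 2
    rwa [show p + 1 + 2 = p + 3 by omega] at this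

theorem sq_one_sub_le {z : ℂ} (hz : ‖z‖ ≤ 1) : ‖(1 : ℂ) - z‖ ^ 2 ≤ 2 * (1 - z.re) := by
  have h1 : ‖(1 : ℂ) - z‖ ^ 2 = 1 - 2 * z.re + ‖z‖ ^ 2 := by
    rw [← Complex.normSq_eq_norm_sq, ← Complex.normSq_eq_norm_sq, Complex.normSq_apply,
      Complex.normSq_apply]
    simp
    ring
  have h2 : ‖z‖ ^ 2 ≤ 1 := by
    have := norm_nonneg z
    nlinarith
  linarith

theorem sq_one_add_le {z : ℂ} (hz : ‖z‖ ≤ 1) : ‖(1 : ℂ) + z‖ ^ 2 ≤ 2 * (1 + z.re) := by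
  have h := sq_one_sub_le (z := -z) (by rwa [norm_neg])
  rw [sub_neg_eq_add, Complex.neg_re, sub_neg_eq_add] at h
  exact h

/-- the numerator of `Γ_l(s)` (the denominator is `nn m d 0 s`) -/
noncomputable def nn (m d l : ℕ) (s : ℝ) : ℝ :=
  yy m (d + l) + s * yy m (d + l - 1) + s * yy m (d + l - 2)

section one

variable {N : ℕ} {L : Fin N → ℂ} (hL : ∀ a, ‖L a‖ ≤ 1) {a0 : Fin N} {s : ℝ} {k : ℕ}

include hL

theorem end_one_ge_two (hs : 2 * (1 - (L a0).re) ≤ s) (hk : 2 ≤ k) (hkN : k + 2 ≤ 2 * N) {l : ℕ}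
    (hl : 2 ≤ l) (hlk : l ≤ k) :
    (hasseDeriv (k - l) (omR L)).eval 1 * nn (2 * N - 2) (2 * N - k) 0 s ≤
      nn (2 * N - 2) (2 * N - k) l s * (hasseDeriv k (omR L)).eval 1 := by
  obtain ⟨E, hE, h⟩ := rest_one hL a0
  obtain ⟨p, hp⟩ : ∃ p, 2 * N - k = p + 2 := ⟨2 * N - k - 2, by omega⟩
  have h1 := h (p + 2 + l) (by omega) (by omega)
  have h2 := h (p + 2) (by omega) (by omega)
  rw [show 2 * N - (p + 2 + l) = k - l by omega] at h1
  rw [show 2 * N - (p + 2) = k by omega] at h2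
  rw [h1, h2, hp]
  unfold nn
  simp only [show p + 2 + l - 1 = p + 1 + l by omega, show p + 2 + l - 2 = p + l by omega,
    Nat.add_zero, show p + 2 - 1 = p + 1 by omega, show p + 2 - 2 = p by omega]
  exact cross_ge_two hE (by positivity) (sq_one_sub_le (hL a0)) hs hl (by omega)

theorem end_one_one (hs : 2 * (1 - (L a0).re) ≤ s) (hk : 2 ≤ k) (hkN : k + 2 ≤ 2 * N)
    {G : ℝ} (hG : 0 ≤ G)
    (hG1 : nn (2 * N - 2) (2 * N - k) 1 s ≤ G * nn (2 * N - 2) (2 * N - k) 0 s)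
    (hG2 : yy (2 * N - 2) (2 * N - k - 1) ≤
      G * (yy (2 * N - 2) (2 * N - k - 1) + yy (2 * N - 2) (2 * N - k - 2))) :
    (hasseDeriv (k - 1) (omR L)).eval 1 ≤ G * (hasseDeriv k (omR L)).eval 1 := by
  obtain ⟨E, hE, h⟩ := rest_one hL a0
  obtain ⟨p, hp⟩ : ∃ p, 2 * N - k = p + 2 := ⟨2 * N - k - 2, by omega⟩
  have h1 := h (p + 3) (by omega) (by omega)
  have h2 := h (p + 2) (by omega) (by omega)
  rw [show 2 * N - (p + 3) = k - 1 by omega, show p + 3 - 1 = p + 2 by omega,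
    show p + 3 - 2 = p + 1 by omega] at h1
  rw [show 2 * N - (p + 2) = k by omega, show p + 2 - 1 = p + 1 by omega,
    show p + 2 - 2 = p by omega] at h2
  rw [h1, h2]
  rw [hp] at hG1 hG2
  unfold nn at hG1
  rw [show p + 2 + 1 - 1 = p + 2 by omega, show p + 2 + 1 - 2 = p + 1 by omega,
    show p + 2 + 1 = p + 3 by omega,
    show p + 2 + 0 - 1 = p + 1 by omega, show p + 2 + 0 - 2 = p by omega, Nat.add_zero] at hG1
  rw [show p + 2 - 1 = p + 1 by omega, show p + 2 - 2 = p by omega] at hG2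
  exact cross_one hE (by positivity) (sq_one_sub_le (hL a0)) hs (by omega) hG hG1 hG2

theorem end_neg_ge_two (hs : 2 * (1 + (L a0).re) ≤ s) (hk : 2 ≤ k) (hkN : k + 2 ≤ 2 * N) {l : ℕ}
    (hl : 2 ≤ l) (hlk : l ≤ k) :
    (-1) ^ (k - l) * (hasseDeriv (k - l) (omR L)).eval (-1) * nn (2 * N - 2) (2 * N - k) 0 s ≤
      nn (2 * N - 2) (2 * N - k) l s * ((-1) ^ k * (hasseDeriv k (omR L)).eval (-1)) := by
  obtain ⟨E, hE, h⟩ := rest_neg_one hL a0
  obtain ⟨p, hp⟩ : ∃ p, 2 * N - k = p + 2 := ⟨2 * N - k - 2, by omega⟩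
  have h1 := h (p + 2 + l) (by omega) (by omega)
  have h2 := h (p + 2) (by omega) (by omega)
  rw [show 2 * N - (p + 2 + l) = k - l by omega] at h1
  rw [show 2 * N - (p + 2) = k by omega] at h2
  have e1 : ((-1 : ℝ)) ^ (k - l) = (-1) ^ (p + 2 + l) := by
    rcases Nat.even_or_odd (k - l) with h3 | h3
    · rw [h3.neg_one_pow, Even.neg_one_pow]
      rw [Nat.even_iff] at h3 ⊢
      omega
    · rw [h3.neg_one_pow, Odd.neg_one_pow]
      rw [Nat.odd_iff] at h3 ⊢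
      omega
  have e2 : ((-1 : ℝ)) ^ k = (-1) ^ (p + 2) := by
    rcases Nat.even_or_odd k with h3 | h3
    · rw [h3.neg_one_pow, Even.neg_one_pow]
      rw [Nat.even_iff] at h3 ⊢
      omega
    · rw [h3.neg_one_pow, Odd.neg_one_pow]
      rw [Nat.odd_iff] at h3 ⊢
      omega
  rw [e1, e2, h1, h2, hp]
  unfold nn
  simp only [show p + 2 + l - 1 = p + 1 + l by omega, show p + 2 + l - 2 = p + l by omega,
    Nat.add_zero, show p + 2 - 1 = p + 1 by omega, show p + 2 - 2 = p by omega]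
  exact cross_ge_two hE (by positivity) (sq_one_add_le (hL a0)) hs hl (by omega)

theorem end_neg_one (hs : 2 * (1 + (L a0).re) ≤ s) (hk : 2 ≤ k) (hkN : k + 2 ≤ 2 * N)
    {G : ℝ} (hG : 0 ≤ G)
    (hG1 : nn (2 * N - 2) (2 * N - k) 1 s ≤ G * nn (2 * N - 2) (2 * N - k) 0 s)
    (hG2 : yy (2 * N - 2) (2 * N - k - 1) ≤
      G * (yy (2 * N - 2) (2 * N - k - 1) + yy (2 * N - 2) (2 * N - k - 2))) :
    (-1) ^ (k - 1) * (hasseDeriv (k - 1) (omR L)).eval (-1) ≤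
      G * ((-1) ^ k * (hasseDeriv k (omR L)).eval (-1)) := by
  obtain ⟨E, hE, h⟩ := rest_neg_one hL a0
  obtain ⟨p, hp⟩ : ∃ p, 2 * N - k = p + 2 := ⟨2 * N - k - 2, by omega⟩
  have h1 := h (p + 3) (by omega) (by omega)
  have h2 := h (p + 2) (by omega) (by omega)
  rw [show 2 * N - (p + 3) = k - 1 by omega, show p + 3 - 1 = p + 2 by omega,
    show p + 3 - 2 = p + 1 by omega] at h1
  rw [show 2 * N - (p + 2) = k by omega, show p + 2 - 1 = p + 1 by omega,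
    show p + 2 - 2 = p by omega] at h2
  have e1 : ((-1 : ℝ)) ^ (k - 1) = (-1) ^ (p + 3) := by
    rcases Nat.even_or_odd (k - 1) with h3 | h3
    · rw [h3.neg_one_pow, Even.neg_one_pow]
      rw [Nat.even_iff] at h3 ⊢
      omega
    · rw [h3.neg_one_pow, Odd.neg_one_pow]
      rw [Nat.odd_iff] at h3 ⊢
      omega
  have e2 : ((-1 : ℝ)) ^ k = (-1) ^ (p + 2) := by
    rcases Nat.even_or_odd k with h3 | h3
    · rw [h3.neg_one_pow, Even.neg_one_pow]
      rw [Nat.even_iff] at h3 ⊢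
      omega
    · rw [h3.neg_one_pow, Odd.neg_one_pow]
      rw [Nat.odd_iff] at h3 ⊢
      omega
  rw [e1, e2, h1, h2]
  rw [hp] at hG1 hG2
  unfold nn at hG1
  rw [show p + 2 + 1 - 1 = p + 2 by omega, show p + 2 + 1 - 2 = p + 1 by omega,
    show p + 2 + 1 = p + 3 by omega,
    show p + 2 + 0 - 1 = p + 1 by omega, show p + 2 + 0 - 2 = p by omega, Nat.add_zero] at hG1
  rw [show p + 2 - 1 = p + 1 by omega, show p + 2 - 2 = p by omega] at hG2
  exact cross_one hE (by positivity) (sq_one_add_le (hL a0)) hs (by omega) hG hG1 hG2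

end one

end Pool.Agent.HEnd
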