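import Pool.Agent.HEnd.End
import Pool.Agent.HHalfB.BVals

/-!
# The end point values with one pair near the end point, for `k = 3` and `k = 4`

`0 ≤ x ≤ 1`, `s = 1 - x`, a pair with `(1 + x)/2 < Re L a`.
-/

set_option autoImplicit false

namespace Pool.Agent.HEnd

open Polynomial Set Complex ComplexConjugate Pool.Agent.HHalf Pool.Agent.HStar Pool.Agent.HHalfB

theorem yv0 (e : ℕ) : yy e e = 2 ^ e := by unfold yy; rw [ch0, mul_one]

theorem yv1 (e : ℕ) : yy (e + 1) e = 2 ^ e * ((e : ℝ) + 1) := by unfold yy; rw [ch1]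

theorem yv2 (e : ℕ) : yy (e + 2) e = 2 ^ e * (((e : ℝ) + 1) * (e + 2) / 2) := by
  unfold yy; rw [ch2]

theorem yv3 (e : ℕ) : yy (e + 3) e = 2 ^ e * (((e : ℝ) + 1) * (e + 2) * (e + 3) / 6) := by
  unfold yy; rw [ch3]

theorem yv4 (e : ℕ) :
    yy (e + 4) e = 2 ^ e * (((e : ℝ) + 1) * (e + 2) * (e + 3) * (e + 4) / 24) := by
  unfold yy; rw [ch4]

theorem yv_gt {m j : ℕ} (h : m < j) : yy m j = 0 := by
  unfold yy; rw [Nat.choose_eq_zero_of_lt h]; simp

theorem hasse_one_nonneg {N : ℕ} {L : Fin N → ℂ} (hL : ∀ a, ‖L a‖ ≤ 1) (a0 : Fin N) {i : ℕ}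
    (hi : i + 2 ≤ 2 * N) : 0 ≤ (hasseDeriv i (omR L)).eval 1 := by
  obtain ⟨E, hE, h⟩ := rest_one hL a0
  have h1 := h (2 * N - i) (by omega) (by omega)
  rw [show 2 * N - (2 * N - i) = i by omega] at h1
  rw [h1]
  have h2 : 0 ≤ 1 - (L a0).re := by
    have := (abs_le.1 (Complex.abs_re_le_norm (L a0))).2
    have := hL a0
    linarith
  have := hE.1 (2 * N - i)
  have := hE.1 (2 * N - i - 1)
  have := hE.1 (2 * N - i - 2)
  positivity

theorem le_of_nn {H Hk n d R : ℝ} (hd : 0 < d) (hHk : 0 ≤ Hk) (h : H * d ≤ n * Hk)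
    (hR : n ≤ R * d) : H ≤ R * Hk := by
  refine le_of_mul_le_mul_right (a := d) ?_ hd
  calc H * d ≤ n * Hk := h
    _ ≤ R * d * Hk := mul_le_mul_of_nonneg_right hR hHk
    _ = R * Hk * d := by ring

theorem inst_three {N : ℕ} (hN : 4 ≤ N) {L : Fin N → ℂ} (hL : ∀ a, ‖L a‖ ≤ 1) {a : Fin N}
    {x s : ℝ} (hs : s = 1 - x) (hx1 : x ≤ 1) (ha : (1 + x) / 2 < (L a).re) :
    (hasseDeriv 2 (omR L)).eval 1 ≤
        max (3 / 5) ((27 * s + 4) / (25 * s + 12)) * (hasseDeriv 3 (omR L)).eval 1 ∧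
      (hasseDeriv 1 (omR L)).eval 1 ≤
        16 * s / (25 * s + 12) * (hasseDeriv 3 (omR L)).eval 1 ∧
      (hasseDeriv 0 (omR L)).eval 1 ≤
        4 * s / (25 * s + 12) * (hasseDeriv 3 (omR L)).eval 1 := by
  obtain ⟨u, hu⟩ : ∃ u, 2 * N = u + 8 := ⟨2 * N - 8, by omega⟩
  have hs0 : 0 ≤ s := by rw [hs]; linarith
  have hsa : 2 * (1 - (L a).re) ≤ s := by rw [hs]; linarith
  have hu0 : (0:ℝ) ≤ u := Nat.cast_nonneg u
  have hP : (0:ℝ) < 2 ^ u := by positivity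
  have hden : 0 < 25 * s + 12 := by linarith
  have e1 := yv0 (u + 6)
  have e2 := yv1 (u + 5)
  have e3 := yv2 (u + 4)
  have e4 := yv3 (u + 3)
  have e5 : yy (u + 6) (u + 7) = 0 := yv_gt (by omega)
  have e6 : yy (u + 6) (u + 8) = 0 := yv_gt (by omega)
  rw [show u + 5 + 1 = u + 6 by omega] at e2
  rw [show u + 4 + 2 = u + 6 by omega] at e3
  rw [show u + 3 + 3 = u + 6 by omega] at e4
  push_cast at e2 e3 e4
  rw [pow_add] at e1 e2 e3 e4
  norm_num at e1 e2 e3 e4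
  have hn0 : nn (2 * N - 2) (2 * N - 3) 0 s = yy (u + 6) (u + 5) + s * yy (u + 6) (u + 4) +
      s * yy (u + 6) (u + 3) := by
    unfold nn
    rw [show 2 * N - 2 = u + 6 by omega, show 2 * N - 3 = u + 5 by omega,
      show u + 5 + 0 = u + 5 by omega, show u + 5 - 1 = u + 4 by omega,
      show u + 5 - 2 = u + 3 by omega]
  have hn1 : nn (2 * N - 2) (2 * N - 3) 1 s = yy (u + 6) (u + 6) + s * yy (u + 6) (u + 5) +
      s * yy (u + 6) (u + 4) := by
    unfold nn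
    rw [show 2 * N - 2 = u + 6 by omega, show 2 * N - 3 = u + 5 by omega,
      show u + 5 + 1 = u + 6 by omega, show u + 6 - 1 = u + 5 by omega,
      show u + 6 - 2 = u + 4 by omega]
  have hn2 : nn (2 * N - 2) (2 * N - 3) 2 s = yy (u + 6) (u + 7) + s * yy (u + 6) (u + 6) +
      s * yy (u + 6) (u + 5) := by
    unfold nn
    rw [show 2 * N - 2 = u + 6 by omega, show 2 * N - 3 = u + 5 by omega,
      show u + 5 + 2 = u + 7 by omega, show u + 7 - 1 = u + 6 by omega,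
      show u + 7 - 2 = u + 5 by omega]
  have hn3 : nn (2 * N - 2) (2 * N - 3) 3 s = yy (u + 6) (u + 8) + s * yy (u + 6) (u + 7) +
      s * yy (u + 6) (u + 6) := by
    unfold nn
    rw [show 2 * N - 2 = u + 6 by omega, show 2 * N - 3 = u + 5 by omega,
      show u + 5 + 3 = u + 8 by omega, show u + 8 - 1 = u + 7 by omega,
      show u + 8 - 2 = u + 6 by omega]
  rw [e2, e3, e4] at hn0
  rw [e1, e2, e3] at hn1
  rw [e5, e1, e2] at hn2
  rw [e6, e5, e1] at hn3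
  have hd : 0 < nn (2 * N - 2) (2 * N - 3) 0 s := by rw [hn0]; positivity
  have hH := hasse_one_nonneg hL a (i := 3) (by omega)
  refine ⟨?_, ?_, ?_⟩
  · refine end_one_one hL (a0 := a) (k := 3) hsa (by norm_num) (by omega) (by positivity) ?_ ?_
    · have h1 : nn (2 * N - 2) (2 * N - 3) 1 s ≤
          (27 * s + 4) / (25 * s + 12) * nn (2 * N - 2) (2 * N - 3) 0 s := by
        rw [div_mul_eq_mul_div, le_div_iff₀ hden, hn0, hn1]
        have h2 : 0 ≤ 2 ^ u * 8 * (16 * u + (64 / 3) * u * s + 255 * u * s ^ 2 + 2 * u ^ 2 * s +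
          (139 / 2) * u ^ 2 * s ^ 2 + (2 / 3) * u ^ 3 * s + (9 / 2) * u ^ 3 * s ^ 2) := by
          positivity
        nlinarith [h2]
      exact h1.trans (mul_le_mul_of_nonneg_right (le_max_right _ _) hd.le)
    · rw [show 2 * N - 3 - 1 = u + 4 by omega, show 2 * N - 3 - 2 = u + 3 by omega,
        show 2 * N - 2 = u + 6 by omega, e3, e4]
      have h1 : (2 ^ u * 16 * ((↑u + 4 + 1) * (↑u + 4 + 2) / 2) : ℝ) ≤
          3 / 5 * (2 ^ u * 16 * ((↑u + 4 + 1) * (↑u + 4 + 2) / 2) +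
            2 ^ u * 8 * ((↑u + 3 + 1) * (↑u + 3 + 2) * (↑u + 3 + 3) / 6)) := by
        have h2 : 0 ≤ 2 ^ u * 8 * (3 * u + (11 / 10) * u ^ 2 + (1 / 10) * u ^ 3 : ℝ) := by
          positivity
        nlinarith [h2]
      refine h1.trans (mul_le_mul_of_nonneg_right (le_max_left _ _) (by positivity))
  · have h := end_one_ge_two hL (a0 := a) (k := 3) hsa (by norm_num) (by omega) (l := 2)
      (by norm_num) (by norm_num)
    refine le_of_nn hd hH h ?_
    rw [div_mul_eq_mul_div, le_div_iff₀ hden, hn0, hn2]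
    have h2 : 0 ≤ 2 ^ u * 8 * (16 * u * s + (820 / 3) * u * s ^ 2 + 56 * u ^ 2 * s ^ 2 +
      (8 / 3) * u ^ 3 * s ^ 2) := by positivity
    nlinarith [h2]
  · have h := end_one_ge_two hL (a0 := a) (k := 3) hsa (by norm_num) (by omega) (l := 3)
      (by norm_num) (by norm_num)
    refine le_of_nn hd hH h ?_
    rw [div_mul_eq_mul_div, le_div_iff₀ hden, hn0, hn3]
    have h2 : 0 ≤ 2 ^ u * 8 * (16 * u * s + (280 / 3) * u * s ^ 2 + 14 * u ^ 2 * s ^ 2 +
      (2 / 3) * u ^ 3 * s ^ 2) := by positivity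
    nlinarith [h2]

theorem inst_four {N : ℕ} (hN : 5 ≤ N) {L : Fin N → ℂ} (hL : ∀ a, ‖L a‖ ≤ 1) {a : Fin N}
    {x s : ℝ} (hs : s = 1 - x) (hx1 : x ≤ 1) (ha : (1 + x) / 2 < (L a).re) :
    (hasseDeriv 3 (omR L)).eval 1 ≤
        max (8 / 13) ((112 * s + 32) / (91 * s + 56)) * (hasseDeriv 4 (omR L)).eval 1 ∧
      (hasseDeriv 2 (omR L)).eval 1 ≤
        (88 * s + 8) / (91 * s + 56) * (hasseDeriv 4 (omR L)).eval 1 ∧
      (hasseDeriv 1 (omR L)).eval 1 ≤
        40 * s / (91 * s + 56) * (hasseDeriv 4 (omR L)).eval 1 ∧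
      (hasseDeriv 0 (omR L)).eval 1 ≤
        8 * s / (91 * s + 56) * (hasseDeriv 4 (omR L)).eval 1 := by
  obtain ⟨u, hu⟩ : ∃ u, 2 * N = u + 10 := ⟨2 * N - 10, by omega⟩
  have hs0 : 0 ≤ s := by rw [hs]; linarith
  have hsa : 2 * (1 - (L a).re) ≤ s := by rw [hs]; linarith
  have hu0 : (0:ℝ) ≤ u := Nat.cast_nonneg u
  have hP : (0:ℝ) < 2 ^ u := by positivity
  have hden : 0 < 91 * s + 56 := by linarith
  have e1 := yv0 (u + 8)
  have e2 := yv1 (u + 7)
  have e3 := yv2 (u + 6)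
  have e4 := yv3 (u + 5)
  have e4' := yv4 (u + 4)
  have e5 : yy (u + 8) (u + 9) = 0 := yv_gt (by omega)
  have e6 : yy (u + 8) (u + 10) = 0 := yv_gt (by omega)
  rw [show u + 7 + 1 = u + 8 by omega] at e2
  rw [show u + 6 + 2 = u + 8 by omega] at e3
  rw [show u + 5 + 3 = u + 8 by omega] at e4
  rw [show u + 4 + 4 = u + 8 by omega] at e4'
  push_cast at e2 e3 e4 e4'
  rw [pow_add] at e1 e2 e3 e4 e4'
  norm_num at e1 e2 e3 e4 e4'
  have hn0 : nn (2 * N - 2) (2 * N - 4) 0 s = yy (u + 8) (u + 6) + s * yy (u + 8) (u + 5) +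
      s * yy (u + 8) (u + 4) := by
    unfold nn
    rw [show 2 * N - 2 = u + 8 by omega, show 2 * N - 4 = u + 6 by omega,
      show u + 6 + 0 = u + 6 by omega, show u + 6 - 1 = u + 5 by omega,
      show u + 6 - 2 = u + 4 by omega]
  have hn1 : nn (2 * N - 2) (2 * N - 4) 1 s = yy (u + 8) (u + 7) + s * yy (u + 8) (u + 6) +
      s * yy (u + 8) (u + 5) := by
    unfold nn
    rw [show 2 * N - 2 = u + 8 by omega, show 2 * N - 4 = u + 6 by omega,
      show u + 6 + 1 = u + 7 by omega, show u + 7 - 1 = u + 6 by omega,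
      show u + 7 - 2 = u + 5 by omega]
  have hn2 : nn (2 * N - 2) (2 * N - 4) 2 s = yy (u + 8) (u + 8) + s * yy (u + 8) (u + 7) +
      s * yy (u + 8) (u + 6) := by
    unfold nn
    rw [show 2 * N - 2 = u + 8 by omega, show 2 * N - 4 = u + 6 by omega,
      show u + 6 + 2 = u + 8 by omega, show u + 8 - 1 = u + 7 by omega,
      show u + 8 - 2 = u + 6 by omega]
  have hn3 : nn (2 * N - 2) (2 * N - 4) 3 s = yy (u + 8) (u + 9) + s * yy (u + 8) (u + 8) +
      s * yy (u + 8) (u + 7) := by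
    unfold nn
    rw [show 2 * N - 2 = u + 8 by omega, show 2 * N - 4 = u + 6 by omega,
      show u + 6 + 3 = u + 9 by omega, show u + 9 - 1 = u + 8 by omega,
      show u + 9 - 2 = u + 7 by omega]
  have hn4 : nn (2 * N - 2) (2 * N - 4) 4 s = yy (u + 8) (u + 10) + s * yy (u + 8) (u + 9) +
      s * yy (u + 8) (u + 8) := by
    unfold nn
    rw [show 2 * N - 2 = u + 8 by omega, show 2 * N - 4 = u + 6 by omega,
      show u + 6 + 4 = u + 10 by omega, show u + 10 - 1 = u + 9 by omega,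
      show u + 10 - 2 = u + 8 by omega]
  rw [e3, e4, e4'] at hn0
  rw [e2, e3, e4] at hn1
  rw [e1, e2, e3] at hn2
  rw [e5, e1, e2] at hn3
  rw [e6, e5, e1] at hn4
  have hd : 0 < nn (2 * N - 2) (2 * N - 4) 0 s := by rw [hn0]; positivity
  have hH := hasse_one_nonneg hL a (i := 4) (by omega)
  refine ⟨?_, ?_, ?_, ?_⟩
  · refine end_one_one hL (a0 := a) (k := 4) hsa (by norm_num) (by omega) (by positivity) ?_ ?_
    · have h1 : nn (2 * N - 2) (2 * N - 4) 1 s ≤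
          (112 * s + 32) / (91 * s + 56) * nn (2 * N - 2) (2 * N - 4) 0 s := by
        rw [div_mul_eq_mul_div, le_div_iff₀ hden, hn0, hn1]
        have h2 : 0 ≤ 2 ^ u * 16 * (512 * u + (3616 / 3) * u * s + (9800 / 3) * u * s ^ 2 +
          64 * u ^ 2 + (836 / 3) * u ^ 2 * s + (3409 / 3) * u ^ 2 * s ^ 2 + (80 / 3) * u ^ 3 * s +
          (385 / 3) * u ^ 3 * s ^ 2 + (4 / 3) * u ^ 4 * s + (14 / 3) * u ^ 4 * s ^ 2) := by
          positivity
        nlinarith [h2]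
      exact h1.trans (mul_le_mul_of_nonneg_right (le_max_right _ _) hd.le)
    · rw [show 2 * N - 4 - 1 = u + 5 by omega, show 2 * N - 4 - 2 = u + 4 by omega,
        show 2 * N - 2 = u + 8 by omega, e4, e4']
      have h1 : (2 ^ u * 32 * ((↑u + 5 + 1) * (↑u + 5 + 2) * (↑u + 5 + 3) / 6) : ℝ) ≤
          8 / 13 * (2 ^ u * 32 * ((↑u + 5 + 1) * (↑u + 5 + 2) * (↑u + 5 + 3) / 6) +
            2 ^ u * 16 * ((↑u + 4 + 1) * (↑u + 4 + 2) * (↑u + 4 + 3) * (↑u + 4 + 4) / 24)) := by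
        have h2 : 0 ≤ 2 ^ u * 16 * ((112 / 13) * u + (146 / 39) * u ^ 2 + (7 / 13) * u ^ 3 +
          (1 / 39) * u ^ 4 : ℝ) := by positivity
        nlinarith [h2]
      refine h1.trans (mul_le_mul_of_nonneg_right (le_max_left _ _) (by positivity))
  · have h := end_one_ge_two hL (a0 := a) (k := 4) hsa (by norm_num) (by omega) (l := 2)
      (by norm_num) (by norm_num)
    refine le_of_nn hd hH h ?_
    rw [div_mul_eq_mul_div, le_div_iff₀ hden, hn0, hn2]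
    have h2 : 0 ≤ 2 ^ u * 16 * (240 * u + (3770 / 3) * u * s + (14200 / 3) * u * s ^ 2 +
      16 * u ^ 2 + (611 / 3) * u ^ 2 * s + (4063 / 3) * u ^ 2 * s ^ 2 + (34 / 3) * u ^ 3 * s +
      (374 / 3) * u ^ 3 * s ^ 2 + (1 / 3) * u ^ 4 * s + (11 / 3) * u ^ 4 * s ^ 2) := by positivity
    nlinarith [h2]
  · have h := end_one_ge_two hL (a0 := a) (k := 4) hsa (by norm_num) (by omega) (l := 3)
      (by norm_num) (by norm_num)
    refine le_of_nn hd hH h ?_
    rw [div_mul_eq_mul_div, le_div_iff₀ hden, hn0, hn3]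
    have h2 : 0 ≤ 2 ^ u * 16 * (752 * u * s + (8986 / 3) * u * s ^ 2 + 80 * u ^ 2 * s +
      (2095 / 3) * u ^ 2 * s ^ 2 + (170 / 3) * u ^ 3 * s ^ 2 + (5 / 3) * u ^ 4 * s ^ 2) := by
      positivity
    nlinarith [h2]
  · have h := end_one_ge_two hL (a0 := a) (k := 4) hsa (by norm_num) (by omega) (l := 4)
      (by norm_num) (by norm_num)
    refine le_of_nn hd hH h ?_
    rw [div_mul_eq_mul_div, le_div_iff₀ hden, hn0, hn4]
    have h2 : 0 ≤ 2 ^ u * 16 * (240 * u * s + (2234 / 3) * u * s ^ 2 + 16 * u ^ 2 * s +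
      (419 / 3) * u ^ 2 * s ^ 2 + (34 / 3) * u ^ 3 * s ^ 2 + (1 / 3) * u ^ 4 * s ^ 2) := by
      positivity
    nlinarith [h2]

end Pool.Agent.HEnd
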