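import Pool.Agent.HEnd.Chain
import Pool.Agent.HHalf.RPairs
import Pool.Agent.HHalf.REnd
import Pool.Agent.HHalf.CNodes
import Pool.Agent.HStar.Asm

/-!
# End point values with one pair split off

`L : Fin N → ℂ` in the closed disc, `a0` an index, `m = 2 N - 2`. With
`ρ = 2 (1 - Re L a0)`, `q = |1 - L a0|^2`:
`e_j = E j + ρ E (j-1) + q E (j-2)` for the values `e_j = H_{2N-j} ω (1)`, where `E j ≥ 0` and
`E j / E i ≤ (2^j C(m,j)) / (2^i C(m,i))` for `i ≤ j`. The same at `-1`.
-/

set_option autoImplicit false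

namespace Pool.Agent.HEnd

open Polynomial Set Complex ComplexConjugate Pool.Agent.HHalf Pool.Agent.HStar

/-- `2^j C(m, j)`. -/
noncomputable def yy (m j : ℕ) : ℝ := 2 ^ j * (m.choose j : ℝ)

theorem yy_nonneg (m j : ℕ) : 0 ≤ yy m j := by unfold yy; positivity

theorem yy_pos {m j : ℕ} (h : j ≤ m) : 0 < yy m j := by
  have := Nat.choose_pos h
  unfold yy
  positivity

/-- log-concavity of `yy` -/
theorem yy_cross (m j a b : ℕ) :
    yy m (j + a + b) * yy m j ≤ yy m (j + a) * yy m (j + b) := by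
  unfold yy
  have h : (m.choose (j + a + b)) * m.choose j ≤ m.choose (j + a) * m.choose (j + b) := by
    rcases Nat.lt_or_ge m (j + a + b) with h0 | h0
    · rw [Nat.choose_eq_zero_of_lt h0, zero_mul]
      exact Nat.zero_le _
    -- `C(m,j) C(m-j, i) = C(m, j+i) C(j+i, j)`
    have e1 := Nat.choose_mul (n := m) (k := j + a + b) (s := j + a)
      (Nat.le_add_right _ _)
    have e2 := Nat.choose_mul (n := m) (k := j + b) (s := j) (Nat.le_add_right _ _)
    rw [show j + a + b - (j + a) = b by omega] at e1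
    rw [show j + b - j = b by omega] at e2
    have h3 : (m - (j + a)).choose b ≤ (m - j).choose b :=
      Nat.choose_le_choose _ (by omega)
    have h4 : (j + b).choose j ≤ (j + a + b).choose (j + a) := by
      rw [show (j + b).choose j = (j + b).choose b from by
        rw [← Nat.choose_symm (show b ≤ j + b by omega)]; congr 1; omega]
      rw [show (j + a + b).choose (j + a) = (j + a + b).choose b from by
        rw [← Nat.choose_symm (show b ≤ j + a + b by omega)]; congr 1; omega]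
      exact Nat.choose_le_choose _ (by omega)
    have h5 : 0 < (j + a + b).choose (j + a) := Nat.choose_pos (Nat.le_add_right _ _)
    refine le_of_mul_le_mul_right (a := (j + a + b).choose (j + a)) ?_ h5
    calc m.choose (j + a + b) * m.choose j * (j + a + b).choose (j + a)
        = (m.choose (j + a + b) * (j + a + b).choose (j + a)) * m.choose j := by ring
      _ = m.choose (j + a) * (m - (j + a)).choose b * m.choose j := by rw [e1]
      _ ≤ m.choose (j + a) * (m - j).choose b * m.choose j :=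
          Nat.mul_le_mul_right _ (Nat.mul_le_mul_left _ h3)
      _ = m.choose (j + a) * (m.choose j * (m - j).choose b) := by ring
      _ = m.choose (j + a) * (m.choose (j + b) * (j + b).choose j) := by rw [e2]
      _ ≤ m.choose (j + a) * (m.choose (j + b) * (j + a + b).choose (j + a)) :=
          Nat.mul_le_mul_left _ (Nat.mul_le_mul_left _ h4)
      _ = m.choose (j + a) * m.choose (j + b) * (j + a + b).choose (j + a) := by ring
  have h' : ((m.choose (j + a + b) : ℝ)) * m.choose j ≤ m.choose (j + a) * m.choose (j + b) := by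
    exact_mod_cast h
  calc 2 ^ (j + a + b) * (m.choose (j + a + b) : ℝ) * (2 ^ j * (m.choose j : ℝ))
      = 2 ^ (j + a + b) * 2 ^ j * ((m.choose (j + a + b) : ℝ) * m.choose j) := by ring
    _ ≤ 2 ^ (j + a + b) * 2 ^ j * ((m.choose (j + a) : ℝ) * m.choose (j + b)) :=
        mul_le_mul_of_nonneg_left h' (by positivity)
    _ = 2 ^ (j + a) * (m.choose (j + a) : ℝ) * (2 ^ (j + b) * (m.choose (j + b) : ℝ)) := by
        rw [pow_add, pow_add]; ring

/-- The cross inequalities of a mixture. -/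
def Cross (m : ℕ) (E : ℕ → ℝ) : Prop :=
  (∀ j, 0 ≤ E j) ∧ (∀ i j, i ≤ j → E j * yy m i ≤ E i * yy m j)

theorem cross_mix {m : ℕ} {P : ℕ → ℝ} (hP : ∀ J, 0 ≤ P J) :
    Cross m (fun j => ∑ J ∈ Finset.range (m + 1), P J * (2 ^ j * (J.choose j : ℝ))) := by
  refine ⟨fun j => Finset.sum_nonneg fun J _ => mul_nonneg (hP J) (by positivity), ?_⟩
  intro i j hij
  show (∑ J ∈ Finset.range (m + 1), P J * (2 ^ j * (J.choose j : ℝ))) * yy m i ≤
    (∑ J ∈ Finset.range (m + 1), P J * (2 ^ i * (J.choose i : ℝ))) * yy m j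
  rw [Finset.sum_mul, Finset.sum_mul]
  refine Finset.sum_le_sum fun J hJ => ?_
  have hJ' : J ≤ m := Nat.lt_succ_iff.1 (Finset.mem_range.1 hJ)
  have h : ((J.choose j : ℝ)) * m.choose i ≤ J.choose i * m.choose j := by
    exact_mod_cast choose_cross hJ' hij
  unfold yy
  calc P J * (2 ^ j * (J.choose j : ℝ)) * (2 ^ i * (m.choose i : ℝ))
      = P J * (2 ^ j * 2 ^ i) * ((J.choose j : ℝ) * m.choose i) := by ring
    _ ≤ P J * (2 ^ j * 2 ^ i) * ((J.choose i : ℝ) * m.choose j) :=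
        mul_le_mul_of_nonneg_left h (mul_nonneg (hP J) (by positivity))
    _ = P J * (2 ^ i * (J.choose i : ℝ)) * (2 ^ j * (m.choose j : ℝ)) := by ring

theorem cross_mix' {m : ℕ} {P : ℕ → ℝ} (hP : ∀ J, 0 ≤ P J) :
    Cross m (fun j => ∑ J ∈ Finset.range (m + 1), P J * (2 ^ j * ((m - J).choose j : ℝ))) := by
  refine ⟨fun j => Finset.sum_nonneg fun J _ => mul_nonneg (hP J) (by positivity), ?_⟩
  intro i j hij
  show (∑ J ∈ Finset.range (m + 1), P J * (2 ^ j * ((m - J).choose j : ℝ))) * yy m i ≤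
    (∑ J ∈ Finset.range (m + 1), P J * (2 ^ i * ((m - J).choose i : ℝ))) * yy m j
  rw [Finset.sum_mul, Finset.sum_mul]
  refine Finset.sum_le_sum fun J hJ => ?_
  have h : (((m - J).choose j : ℝ)) * m.choose i ≤ (m - J).choose i * m.choose j := by
    exact_mod_cast choose_cross (Nat.sub_le m J) hij
  unfold yy
  calc P J * (2 ^ j * ((m - J).choose j : ℝ)) * (2 ^ i * (m.choose i : ℝ))
      = P J * (2 ^ j * 2 ^ i) * (((m - J).choose j : ℝ) * m.choose i) := by ring
    _ ≤ P J * (2 ^ j * 2 ^ i) * (((m - J).choose i : ℝ) * m.choose j) :=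
        mul_le_mul_of_nonneg_left h (mul_nonneg (hP J) (by positivity))
    _ = P J * (2 ^ i * ((m - J).choose i : ℝ)) * (2 ^ j * (m.choose j : ℝ)) := by ring

/-- Value of a derivative of a product with a monic quadratic. -/
theorem hasse_quad (q r c : ℂ) (f g : ℂ[X]) (hg : taylor c g = X ^ 2 + C r * X + C q) (i : ℕ) :
    (hasseDeriv (i + 2) (g * f)).eval c = (hasseDeriv i f).eval c +
      r * (hasseDeriv (i + 1) f).eval c + q * (hasseDeriv (i + 2) f).eval c := by
  rw [← taylor_coeff, ← taylor_coeff, ← taylor_coeff, ← taylor_coeff, taylor_mul, hg]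
  rw [show (X ^ 2 + C r * X + C q) * taylor c f =
    taylor c f * X ^ 2 + C r * (taylor c f * X) + C q * taylor c f by ring]
  rw [coeff_add, coeff_add, coeff_C_mul, coeff_C_mul, coeff_mul_X_pow]
  rw [show i + 2 = (i + 1) + 1 by ring, coeff_mul_X]

theorem hasse_quad0 (q r c : ℂ) (f g : ℂ[X]) (hg : taylor c g = X ^ 2 + C r * X + C q) :
    (hasseDeriv 0 (g * f)).eval c = q * (hasseDeriv 0 f).eval c := by
  rw [← taylor_coeff, ← taylor_coeff, taylor_mul, hg]
  rw [show (X ^ 2 + C r * X + C q) * taylor c f =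
    taylor c f * X ^ 2 + C r * (taylor c f * X) + C q * taylor c f by ring]
  rw [coeff_add, coeff_add, coeff_C_mul, coeff_C_mul, coeff_mul_X_zero,
    coeff_mul_X_pow', if_neg (by omega)]
  ring

theorem hasse_quad1 (q r c : ℂ) (f g : ℂ[X]) (hg : taylor c g = X ^ 2 + C r * X + C q) :
    (hasseDeriv 1 (g * f)).eval c =
      r * (hasseDeriv 0 f).eval c + q * (hasseDeriv 1 f).eval c := by
  rw [← taylor_coeff, ← taylor_coeff, ← taylor_coeff, taylor_mul, hg]
  rw [show (X ^ 2 + C r * X + C q) * taylor c f =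
    taylor c f * X ^ 2 + C r * (taylor c f * X) + C q * taylor c f by ring]
  rw [coeff_add, coeff_add, coeff_C_mul, coeff_C_mul, coeff_mul_X_pow', if_neg (by omega)]
  rw [show (1 : ℕ) = 0 + 1 by ring, coeff_mul_X]
  ring

theorem taylor_pair (z : ℂ) (c : ℝ) :
    taylor (c : ℂ) ((X - C z) * (X - C (conj z))) =
      X ^ 2 + C ((2 * (c - z.re) : ℝ) : ℂ) * X + C ((‖(c : ℂ) - z‖ ^ 2 : ℝ) : ℂ) := by
  have h1 : taylor (c : ℂ) ((X - C z) * (X - C (conj z))) =
      (X + C ((c : ℂ) - z)) * (X + C ((c : ℂ) - conj z)) := by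
    simp only [taylor_apply, mul_comp, sub_comp, X_comp, C_comp, C_sub]
    ring
  have h2 : ((2 * (c - z.re) : ℝ) : ℂ) = ((c : ℂ) - z) + ((c : ℂ) - conj z) := by
    have : z + conj z = ((2 * z.re : ℝ) : ℂ) := by rw [Complex.add_conj]
    have h3 : ((2 * (c - z.re) : ℝ) : ℂ) = 2 * (c : ℂ) - ((2 * z.re : ℝ) : ℂ) := by
      push_cast; ring
    rw [h3, ← this]
    ring
  have h3 : ((‖(c : ℂ) - z‖ ^ 2 : ℝ) : ℂ) = ((c : ℂ) - z) * ((c : ℂ) - conj z) := by
    have h4 : (c : ℂ) - conj z = conj ((c : ℂ) - z) := by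
      rw [map_sub, Complex.conj_ofReal]
    rw [h4, Complex.mul_conj, Complex.normSq_eq_norm_sq]
  rw [h1, h2, h3, C_add, C_mul]
  ring

/-- the rest of the list, at the point `1` -/
theorem rest_one {N : ℕ} {L : Fin N → ℂ} (hL : ∀ a, ‖L a‖ ≤ 1) (a0 : Fin N) :
    ∃ E : ℕ → ℝ, Cross (2 * N - 2) E ∧ ∀ j, 2 ≤ j → j ≤ 2 * N →
      (hasseDeriv (2 * N - j) (omR L)).eval 1 =
        E j + 2 * (1 - (L a0).re) * E (j - 1) + ‖(1 : ℂ) - L a0‖ ^ 2 * E (j - 2) := by
  have hN : 1 ≤ N := a0.pos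
  obtain ⟨P, hP, hprod⟩ := rep_prod (Finset.univ.erase a0) L hL
  have hcard : 2 * (Finset.univ.erase a0).card = 2 * N - 2 := by
    rw [Finset.card_erase_of_mem (Finset.mem_univ _), Finset.card_univ, Fintype.card_fin]
    omega
  rw [hcard] at hprod
  set m := 2 * N - 2 with hm
  have hom : om (zL L) = ((X - C (L a0)) * (X - C (conj (L a0)))) * mix m P := by
    rw [om_zL, ← hprod, ← Finset.mul_prod_erase Finset.univ _ (Finset.mem_univ a0)]
    rfl
  -- values of the mixture
  have hval : ∀ i ≤ m, (hasseDeriv i (mix m P)).eval 1 =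
      ((∑ J ∈ Finset.range (m + 1), P J * (2 ^ (m - i) * (J.choose (m - i) : ℝ)) : ℝ) : ℂ) := by
    intro i hi
    unfold mix
    rw [rend_sum]
    push_cast
    refine Finset.sum_congr rfl fun J hJ => ?_
    have hJ' : J ≤ m := Nat.lt_succ_iff.1 (Finset.mem_range.1 hJ)
    rw [bb_one ℂ hJ' hi]
    ring
  have hvan : ∀ j, m < j →
      (∑ J ∈ Finset.range (m + 1), P J * (2 ^ j * (J.choose j : ℝ))) = 0 := by
    intro j hj
    refine Finset.sum_eq_zero fun J hJ => ?_
    have hJ' : J ≤ m := Nat.lt_succ_iff.1 (Finset.mem_range.1 hJ)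
    rw [Nat.choose_eq_zero_of_lt (by omega)]
    simp
  refine ⟨_, cross_mix (m := m) hP, fun j hj2 hjN => ?_⟩
  have h1 := hasse_real L (2 * N - j) 1
  rw [hom] at h1
  have ht := taylor_pair (L a0) 1
  have hcast : (((hasseDeriv (2 * N - j) (omR L)).eval 1 : ℝ) : ℂ) =
      ((((∑ J ∈ Finset.range (m + 1), P J * (2 ^ j * (J.choose j : ℝ))) +
        2 * (1 - (L a0).re) *
          (∑ J ∈ Finset.range (m + 1), P J * (2 ^ (j - 1) * (J.choose (j - 1) : ℝ))) +
        ‖(1 : ℂ) - L a0‖ ^ 2 *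
          (∑ J ∈ Finset.range (m + 1), P J * (2 ^ (j - 2) * (J.choose (j - 2) : ℝ)))) : ℝ) : ℂ) := by
    rw [← h1, Complex.ofReal_one]
    rw [Complex.ofReal_one] at ht
    rcases Nat.lt_or_ge j (2 * N - 1) with hc | hc
    · obtain ⟨i, hi⟩ : ∃ i, 2 * N - j = i + 2 := ⟨2 * N - j - 2, by omega⟩
      rw [hi, hasse_quad _ _ _ _ _ ht, hval i (by omega), hval (i + 1) (by omega),
        hval (i + 2) (by omega)]
      rw [show m - i = j by omega, show m - (i + 1) = j - 1 by omega,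
        show m - (i + 2) = j - 2 by omega]
      push_cast
      ring
    · have hc' : j = 2 * N - 1 ∨ j = 2 * N := by omega
      rcases hc' with rfl | rfl
      · rw [show 2 * N - (2 * N - 1) = 1 by omega, hasse_quad1 _ _ _ _ _ ht,
          hval 0 (Nat.zero_le _), hval 1 (by omega), hvan (2 * N - 1) (by omega)]
        rw [show m - 0 = 2 * N - 1 - 1 by omega, show m - 1 = 2 * N - 1 - 2 by omega]
        push_cast
        ring
      · rw [show 2 * N - 2 * N = 0 by omega, hasse_quad0 _ _ _ _ _ ht,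
          hval 0 (Nat.zero_le _), hvan (2 * N) (by omega), hvan (2 * N - 1) (by omega)]
        rw [show m - 0 = 2 * N - 2 by omega]
        push_cast
        ring
  exact_mod_cast hcast

/-- the rest of the list, at the point `-1` -/
theorem rest_neg_one {N : ℕ} {L : Fin N → ℂ} (hL : ∀ a, ‖L a‖ ≤ 1) (a0 : Fin N) :
    ∃ E : ℕ → ℝ, Cross (2 * N - 2) E ∧ ∀ j, 2 ≤ j → j ≤ 2 * N →
      (-1) ^ j * (hasseDeriv (2 * N - j) (omR L)).eval (-1) =
        E j + 2 * (1 + (L a0).re) * E (j - 1) + ‖(1 : ℂ) + L a0‖ ^ 2 * E (j - 2) := by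
  have hN : 1 ≤ N := a0.pos
  obtain ⟨P, hP, hprod⟩ := rep_prod (Finset.univ.erase a0) L hL
  have hcard : 2 * (Finset.univ.erase a0).card = 2 * N - 2 := by
    rw [Finset.card_erase_of_mem (Finset.mem_univ _), Finset.card_univ, Fintype.card_fin]
    omega
  rw [hcard] at hprod
  set m := 2 * N - 2 with hm
  have hom : om (zL L) = ((X - C (L a0)) * (X - C (conj (L a0)))) * mix m P := by
    rw [om_zL, ← hprod, ← Finset.mul_prod_erase Finset.univ _ (Finset.mem_univ a0)]
    rfl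
  have hval : ∀ i ≤ m, (hasseDeriv i (mix m P)).eval (-1) = (-1) ^ (m - i) *
      ((∑ J ∈ Finset.range (m + 1), P J * (2 ^ (m - i) * ((m - J).choose (m - i) : ℝ)) : ℝ) : ℂ) := by
    intro i hi
    unfold mix
    rw [rend_sum]
    push_cast
    rw [Finset.mul_sum]
    refine Finset.sum_congr rfl fun J hJ => ?_
    have hJ' : J ≤ m := Nat.lt_succ_iff.1 (Finset.mem_range.1 hJ)
    rw [bb_neg_one ℂ hJ' hi]
    have h2 : (-2 : ℂ) ^ (m - i) = (-1) ^ (m - i) * 2 ^ (m - i) := by
      rw [← mul_pow]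
      norm_num
    rw [h2]
    ring
  have hvan : ∀ j, m < j →
      (∑ J ∈ Finset.range (m + 1), P J * (2 ^ j * ((m - J).choose j : ℝ))) = 0 := by
    intro j hj
    refine Finset.sum_eq_zero fun J hJ => ?_
    rw [Nat.choose_eq_zero_of_lt (by omega)]
    simp
  refine ⟨_, cross_mix' (m := m) hP, fun j hj2 hjN => ?_⟩
  have h1 := hasse_real L (2 * N - j) (-1)
  rw [hom] at h1
  have ht := taylor_pair (L a0) (-1)
  have hq : ‖((-1 : ℝ) : ℂ) - L a0‖ ^ 2 = ‖(1 : ℂ) + L a0‖ ^ 2 := by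
    rw [show ((-1 : ℝ) : ℂ) - L a0 = -((1 : ℂ) + L a0) by push_cast; ring, norm_neg]
  rw [hq] at ht
  have hcast : (((-1) ^ j * (hasseDeriv (2 * N - j) (omR L)).eval (-1) : ℝ) : ℂ) =
      ((((∑ J ∈ Finset.range (m + 1), P J * (2 ^ j * ((m - J).choose j : ℝ))) +
        2 * (1 + (L a0).re) *
          (∑ J ∈ Finset.range (m + 1), P J * (2 ^ (j - 1) * ((m - J).choose (j - 1) : ℝ))) +
        ‖(1 : ℂ) + L a0‖ ^ 2 *
          (∑ J ∈ Finset.range (m + 1), P J * (2 ^ (j - 2) * ((m - J).choose (j - 2) : ℝ)))) : ℝ)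
          : ℂ) := by
    rw [Complex.ofReal_mul, ← h1]
    have hm1 : ((-1 : ℝ) : ℂ) = -1 := by push_cast; ring
    rw [hm1] at ht ⊢
    rcases Nat.lt_or_ge j (2 * N - 1) with hc | hc
    · obtain ⟨i, hi⟩ : ∃ i, 2 * N - j = i + 2 := ⟨2 * N - j - 2, by omega⟩
      obtain ⟨p, rfl⟩ : ∃ p, j = p + 2 := ⟨j - 2, by omega⟩
      rw [hi, hasse_quad _ _ _ _ _ ht, hval i (by omega), hval (i + 1) (by omega),
        hval (i + 2) (by omega)]
      rw [show m - i = p + 2 by omega, show m - (i + 1) = p + 1 by omega,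
        show m - (i + 2) = p by omega]
      rw [show p + 2 - 1 = p + 1 by omega, show p + 2 - 2 = p by omega]
      have hsq : ((-1 : ℂ) ^ p) * (-1) ^ p = 1 := by
        rw [← mul_pow]; norm_num
      push_cast
      rw [pow_succ, pow_succ]
      linear_combination ((∑ J ∈ Finset.range (m + 1), (P J : ℂ) *
          (2 ^ (p + 2) * ((m - J).choose (p + 2) : ℂ))) +
        2 * (1 + ((L a0).re : ℂ)) *
          (∑ J ∈ Finset.range (m + 1), (P J : ℂ) * (2 ^ (p + 1) * ((m - J).choose (p + 1) : ℂ))) +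
        (‖(1 : ℂ) + L a0‖ : ℂ) ^ 2 *
          (∑ J ∈ Finset.range (m + 1), (P J : ℂ) * (2 ^ p * ((m - J).choose p : ℂ)))) * hsq
    · have hc' : j = 2 * N - 1 ∨ j = 2 * N := by omega
      rcases hc' with rfl | rfl
      · rw [show 2 * N - (2 * N - 1) = 1 by omega, hasse_quad1 _ _ _ _ _ ht,
          hval 0 (Nat.zero_le _), hval 1 (by omega), hvan (2 * N - 1) (by omega)]
        obtain ⟨p, hp⟩ : ∃ p, m = p + 1 := ⟨m - 1, by omega⟩
        rw [show m - 0 = 2 * N - 1 - 1 by omega, show m - 1 = 2 * N - 1 - 2 by omega]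
        rw [show 2 * N - 1 = p + 2 by omega, show p + 2 - 1 = p + 1 by omega,
          show p + 2 - 2 = p by omega]
        have hsq : ((-1 : ℂ) ^ p) * (-1) ^ p = 1 := by
          rw [← mul_pow]; norm_num
        push_cast
        rw [pow_succ, pow_succ]
        linear_combination (2 * (1 + ((L a0).re : ℂ)) *
            (∑ J ∈ Finset.range (m + 1), (P J : ℂ) * (2 ^ (p + 1) * ((m - J).choose (p + 1) : ℂ))) +
          (‖(1 : ℂ) + L a0‖ : ℂ) ^ 2 *
            (∑ J ∈ Finset.range (m + 1), (P J : ℂ) * (2 ^ p * ((m - J).choose p : ℂ)))) * hsq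
      · rw [show 2 * N - 2 * N = 0 by omega, hasse_quad0 _ _ _ _ _ ht,
          hval 0 (Nat.zero_le _), hvan (2 * N) (by omega), hvan (2 * N - 1) (by omega)]
        rw [show m - 0 = 2 * N - 2 by omega]
        obtain ⟨p, hp⟩ : ∃ p, 2 * N - 2 = p := ⟨_, rfl⟩
        rw [show 2 * N = p + 2 by omega, show p + 2 - 2 = p by omega]
        have hsq : ((-1 : ℂ) ^ p) * (-1) ^ p = 1 := by
          rw [← mul_pow]; norm_num
        push_cast
        rw [pow_succ, pow_succ]
        linear_combination ((‖(1 : ℂ) + L a0‖ : ℂ) ^ 2 *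
            (∑ J ∈ Finset.range (m + 1), (P J : ℂ) * (2 ^ p * ((m - J).choose p : ℂ)))) * hsq
  exact_mod_cast hcast

end Pool.Agent.HEnd
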